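import Pool.Agent.H75.CO.Defs

/-!
# H2 EX, En: periodic sets of real numbers have enumerations
-/

set_option autoImplicit false

namespace Pool.Agent.H2.EX

open Pool.Agent.H75.CO

private theorem per_int {P : Set ℝ} (hper : ∀ t, t ∈ P ↔ t + 1 ∈ P) (k : ℤ) : ∀ t, t ∈ P ↔ t + k ∈ P := by
  have hnat : ∀ (m : ℕ) (t : ℝ), t ∈ P ↔ t + m ∈ P := by
    intro m
    induction m with
    | zero =>
      intro t
      rw [Nat.cast_zero, add_zero]
    | succ m ih =>
      intro t
      rw [ih t, hper]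
      push_cast
      rw [add_assoc]
  intro t
  obtain ⟨m, rfl | rfl⟩ := k.eq_nat_or_neg
  · exact_mod_cast hnat m t
  · have h := hnat m (t + ((-(m : ℤ) : ℤ) : ℝ))
    push_cast at h ⊢
    rw [neg_add_cancel_right] at h
    exact h.symm

/-- Proof. `m` is the number of the elements `a 0 < .. < a (m - 1)` of `P` in the interval `(T - 1, T]`, and
`p k = a (j % m) + j / m` for `j = k + m - 1`. -/
theorem exists_en {P : Set ℝ} (hne : P.Nonempty) (hper : ∀ t, t ∈ P ↔ t + 1 ∈ P) (T : ℝ)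
    (hfin : (P ∩ Set.Ioc (T - 1) T).Finite) : ∃ p : ℤ → ℝ, En P T p := by
  classical
  have hperi := per_int hper
  -- reduction to the interval
  have hred : ∀ x ∈ P, x - (⌈x - T⌉ : ℝ) ∈ P ∩ Set.Ioc (T - 1) T := by
    intro x hx
    refine ⟨?_, ?_, ?_⟩
    · have h1 := (hperi (-⌈x - T⌉) x).1 hx
      push_cast at h1
      rw [← sub_eq_add_neg] at h1
      exact h1
    · have := Int.ceil_lt_add_one (x - T)
      linarith
    · have := Int.le_ceil (x - T)
      linarith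
  obtain ⟨F, hF⟩ : ∃ F : Finset ℝ, ∀ x, x ∈ F ↔ x ∈ P ∩ Set.Ioc (T - 1) T := ⟨hfin.toFinset, fun x => hfin.mem_toFinset⟩
  obtain ⟨m, hm⟩ : ∃ m, F.card = m := ⟨_, rfl⟩
  have hm0 : 0 < m := by
    obtain ⟨x, hx⟩ := hne
    rw [← hm, Finset.card_pos]
    exact ⟨_, (hF _).2 (hred x hx)⟩
  obtain ⟨a, ha⟩ : ∃ a : Fin m ↪o ℝ, Set.range a = F := ⟨F.orderEmbOfFin hm, F.range_orderEmbOfFin hm⟩
  have haF : ∀ i, a i ∈ P ∩ Set.Ioc (T - 1) T := by
    intro i
    rw [← hF, ← Finset.mem_coe, ← ha]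
    exact ⟨i, rfl⟩
  have hmz : (0 : ℤ) < m := by exact_mod_cast hm0
  have hmod : ∀ j : ℤ, (j % m).toNat < m := by
    intro j
    have h1 := Int.emod_nonneg j hmz.ne'
    have h2 := Int.emod_lt_of_pos j hmz
    omega
  obtain ⟨p, hp⟩ : ∃ p : ℤ → ℝ, ∀ k, p k = a ⟨((k + m - 1) % m).toNat, hmod _⟩ + (((k + m - 1) / m : ℤ) : ℝ) :=
    ⟨_, fun _ => rfl⟩
  -- the value of `p` at `q m + i - (m - 1)`
  have hval : ∀ (q : ℤ) (i : Fin m), p (q * m + i - (m - 1)) = a i + q := by
    intro q i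
    have hi : ((i : ℕ) : ℤ) < m := by exact_mod_cast i.2
    have hi0 : (0 : ℤ) ≤ ((i : ℕ) : ℤ) := Int.natCast_nonneg _
    have e : q * m + i - (m - 1) + m - 1 = i + m * q := by ring
    have e1 : (q * m + i - (m - 1) + m - 1) % m = i := by
      rw [e, Int.add_mul_emod_self_left, Int.emod_eq_of_lt hi0 hi]
    have e2 : (q * m + i - (m - 1) + m - 1) / m = q := by
      rw [e, Int.add_mul_ediv_left _ _ hmz.ne', Int.ediv_eq_zero_of_lt hi0 hi, zero_add]
    rw [hp, e2]
    congr 2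
    apply Fin.ext
    show ((q * m + i - (m - 1) + m - 1) % (m : ℤ)).toNat = i
    rw [e1, Int.toNat_natCast]
  have hform : ∀ k : ℤ, ∃ (q : ℤ) (i : Fin m), k = q * m + i - (m - 1) := by
    intro k
    refine ⟨(k + m - 1) / m, ⟨((k + m - 1) % m).toNat, hmod _⟩, ?_⟩
    have h1 := Int.emod_nonneg (k + m - 1) hmz.ne'
    have h2 := Int.emod_add_mul_ediv (k + m - 1) m
    show k = (k + m - 1) / m * m + (((k + m - 1) % m).toNat : ℤ) - (m - 1)
    rw [Int.toNat_of_nonneg h1, mul_comm]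
    linarith
  refine ⟨p, strictMono_int_of_lt_succ ?_, ?_, ?_, ?_⟩
  · intro k
    obtain ⟨q, i, rfl⟩ := hform k
    by_cases hi : (i : ℕ) + 1 < m
    · have e : q * m + i - (m - 1) + 1 = q * m + ((⟨(i : ℕ) + 1, hi⟩ : Fin m) : ℕ) - (m - 1) := by
        push_cast
        ring
      rw [e, hval, hval]
      have h1 : i < (⟨(i : ℕ) + 1, hi⟩ : Fin m) := by
        rw [Fin.lt_def]
        exact Nat.lt_succ_self _
      have := a.lt_iff_lt.2 h1
      linarith
    · have hi' : (i : ℕ) = m - 1 := by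
        have := i.2
        omega
      have hi'' : ((i : ℕ) : ℤ) = m - 1 := by
        rw [hi']
        push_cast [hm0]
        ring
      have e : q * m + i - (m - 1) + 1 = (q + 1) * m + ((⟨0, hm0⟩ : Fin m) : ℕ) - (m - 1) := by
        rw [hi'']
        push_cast
        ring
      rw [e, hval, hval]
      have h1 := (haF i).2.2
      have h2 := (haF ⟨0, hm0⟩).2.1
      push_cast
      linarith
  · ext x
    constructor
    · rintro ⟨k, rfl⟩
      obtain ⟨q, i, rfl⟩ := hform k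
      rw [hval]
      exact (hperi q _).1 (haF i).1
    · intro hx
      have h1 := hred x hx
      rw [← hF, ← Finset.mem_coe, ← ha] at h1
      obtain ⟨i, hi⟩ := h1
      refine ⟨⌈x - T⌉ * m + i - (m - 1), ?_⟩
      rw [hval, hi, sub_add_cancel]
  · have hi : m - 1 < m := by omega
    have e : (0 : ℤ) = 0 * m + ((⟨m - 1, hi⟩ : Fin m) : ℕ) - (m - 1) := by
      push_cast [hm0]
      ring
    rw [e, hval]
    have := (haF ⟨m - 1, hi⟩).2.2
    push_cast
    linarith
  · have e : (1 : ℤ) = 1 * m + ((⟨0, hm0⟩ : Fin m) : ℕ) - (m - 1) := by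
      push_cast
      ring
    rw [e, hval]
    have := (haF ⟨0, hm0⟩).2.1
    push_cast
    linarith

end Pool.Agent.H2.EX
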