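import Pool.Agent.H2.EX.Lvl
import Pool.Agent.H2.EX.En

/-!
# [H2 EX Str] existence of strong windows (C1)

`exists_tower`: recursion on the dimension. `exists_strong`: (C1) of H75/CO/Core.
-/

set_option autoImplicit false

namespace Pool.Agent.H2.EX

open Pool.Agent.H54.TT Pool.Agent.H98.RH Pool.Agent.H75.CO Matrix
open scoped Pointwise

variable {K : Type} [Field K] {v : K → ℤ} {hv : IsDV v} {n : ℕ} {π : Kˣ} {G : Type} [Group G]
  {ρ : G →* GL (Fin n) K} {S : Set G} {R : ℕ}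

/-- the number of indices which are needed -/
def XX (n : ℕ) : ℕ → ℕ
  | 0 => 0
  | k + 1 => ((XX n k + 6) * (n + 1) + 8) * (n + 1)

theorem XX_le (n k : ℕ) : XX n k + 6 ≤ 6 * (20 * (n + 2) ^ 2) ^ k := by
  induction k with
  | zero => simp [XX]
  | succ k ih =>
    have h1 : XX n (k + 1) + 6 ≤ (XX n k + 6) * (20 * (n + 2) ^ 2) := by
      show ((XX n k + 6) * (n + 1) + 8) * (n + 1) + 6 ≤ _
      have h2 : 1 ≤ XX n k + 6 := by omega
      have h3 : 8 * (n + 1) + 6 ≤ (XX n k + 6) * (8 * (n + 1) + 6) := by nlinarith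
      have h4 : (n + 1) * (n + 1) + (8 * (n + 1) + 6) ≤ 20 * (n + 2) ^ 2 := by nlinarith
      calc ((XX n k + 6) * (n + 1) + 8) * (n + 1) + 6
          = (XX n k + 6) * ((n + 1) * (n + 1)) + (8 * (n + 1) + 6) := by ring
        _ ≤ (XX n k + 6) * ((n + 1) * (n + 1)) + (XX n k + 6) * (8 * (n + 1) + 6) := Nat.add_le_add_left h3 _
        _ = (XX n k + 6) * ((n + 1) * (n + 1) + (8 * (n + 1) + 6)) := by ring
        _ ≤ _ := Nat.mul_le_mul_left _ h4
    calc XX n (k + 1) + 6 ≤ (XX n k + 6) * (20 * (n + 2) ^ 2) := h1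
      _ ≤ 6 * (20 * (n + 2) ^ 2) ^ k * (20 * (n + 2) ^ 2) := Nat.mul_le_mul_right _ ih
      _ = _ := by ring

theorem exists_tower (hs : Stp hv π ρ S R) {A c : ℕ} (hA : 1 ≤ A) (hc : 1 ≤ c) (g : G) {B : ℝ → Lt hv n} (hB : Hn B)
    (N k : ℕ) : ∀ (W : Lt hv n), IsSub W → W ≠ ⊥ → dm W ≤ k → ∀ lo, lo + XX n k < N →
    ∃ (r : ℕ) (d : ℕ → Dat n N) (V : ℕ → Lt hv n), r < k ∧ V 0 = W ∧ V (r + 1) = ⊥ ∧ (∀ l, l ≤ r → V l ≠ ⊥) ∧
      (∀ l, l ≤ r → IsSub (V l)) ∧ (∀ l, l ≤ r → Good π ρ S A c (d l) g B (V l) (V (l + 1))) ∧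
      lo ≤ (d 0).al ∧ ((d 0).be : ℕ) ≤ lo + XX n k ∧
      (∀ l, l < r → ((d l).a : ℕ) ≤ (d (l + 1)).al ∧ ((d (l + 1)).be : ℕ) + 1 ≤ (d l).b) := by
  classical
  induction k with
  | zero =>
    intro W hW hne hdm lo hlo
    exfalso
    -- a level exists in a long window
    obtain ⟨d, W1, h1, -⟩ := exists_level (N := lo + (6 * (n + 1) + 8) * (n + 1) + 1) hs hA hc g hB hW hne lo 6 le_rfl
      (Nat.lt_succ_self _)
    have := h1.dim
    omega
  | succ k ih =>
    intro W hW hne hdm lo hlo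
    obtain ⟨d0, W1, h1, h2, h3, h4⟩ := exists_level (N := N) hs hA hc g hB hW hne lo (XX n k + 6) (by omega) hlo
    by_cases hbot : W1 = ⊥
    · subst hbot
      refine ⟨0, fun _ => d0, fun l => if l = 0 then W else ⊥, Nat.succ_pos k, rfl, rfl, ?_, ?_, ?_, h2, h3, ?_⟩
      · intro l hl
        have hl0 : l = 0 := by omega
        subst hl0
        exact hne
      · intro l hl
        have hl0 : l = 0 := by omega
        subst hl0
        exact hW
      · intro l hl
        have hl0 : l = 0 := by omega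
        subst hl0
        exact h1
      · intro l hl
        omega
    · obtain ⟨r, d, V, i1, i2, i3, i4, i5, i6, i7, i8, i9⟩ := ih W1 h1.sub hbot (by have := h1.dim; omega) d0.a (by
        have := d0.b.2
        omega)
      refine ⟨r + 1, fun l => Nat.casesOn l d0 d, fun l => Nat.casesOn l W V, by omega, rfl, i3, ?_, ?_, ?_, h2, h3, ?_⟩
      · intro l hl
        cases l with
        | zero => exact hne
        | succ l => exact i4 l (by omega)
      · intro l hl
        cases l with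
        | zero => exact hW
        | succ l => exact i5 l (by omega)
      · intro l hl
        cases l with
        | zero =>
          show Good π ρ S A c d0 g B W (V 0)
          rw [i2]
          exact h1
        | succ l => exact i6 l (by omega)
      · intro l hl
        cases l with
        | zero =>
          show (d0.a : ℕ) ≤ (d 0).al ∧ ((d 0).be : ℕ) + 1 ≤ d0.b
          exact ⟨i7, by omega⟩
        | succ l => exact i9 l (by omega)

theorem md_mul_le (n : ℕ) (j : ℕ) : md n j * (n + 1) ≤ 1 := by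
  have h1 : cc n j ≤ cc n 0 := cc_anti n (Nat.zero_le j)
  have h2 : cc n (j + 1) ≤ cc n 0 := cc_anti n (Nat.zero_le _)
  have h3 : cc n 0 = 1 / ((n : ℝ) + 1) := by
    unfold cc
    rw [pow_zero, mul_one]
  have h4 : md n j ≤ 1 / ((n : ℝ) + 1) := by
    unfold md
    rw [← h3]
    linarith
  have h5 : (0 : ℝ) < (n : ℝ) + 1 := by positivity
  calc md n j * (n + 1) ≤ 1 / ((n : ℝ) + 1) * (n + 1) := mul_le_mul_of_nonneg_right h4 h5.le
    _ = 1 := by field_simp

/-- (C1) every honest norm has a strong window of some regime -/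
theorem exists_strong (hn : 0 < n) (hs : Stp hv π ρ S R) {c : ℕ} (hc : 1 ≤ c) (g : G) {B : ℝ → Lt hv n} (hB : Hn B) :
    ∃ (r : ℕ) (d : ℕ → Dat n (NN n)) (f : (Fin (r + 1) → ℤ) → Lt hv n), Rg r d ∧ St π ρ S (AA n R) c r d g B f := by
  classical
  have hA : 1 ≤ AA n R := by
    have h1 : 0 < 10 ^ 6 * (n + 2) * 4 ^ (n + 2) * (R + 1) := by positivity
    exact h1
  have hne : (⊤ : Lt hv n) ≠ ⊥ := by
    intro he
    have h1 : (Pi.single ⟨0, hn⟩ (1 : K) : Fin n → K) ∈ (⊤ : Lt hv n) := Submodule.mem_top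
    rw [he, Submodule.mem_bot] at h1
    have h2 := congrFun h1 ⟨0, hn⟩
    simp at h2
  have hdm : dm (⊤ : Lt hv n) ≤ n := by
    unfold dm
    refine (Submodule.finrank_le _).trans ?_
    rw [Module.finrank_fin_fun]
  have hN : 1 + XX n n < NN n := by
    have h1 := XX_le n n
    have h2 : 6 * (20 * (n + 2) ^ 2) ^ n ≤ NN n := by
      show _ ≤ 30 * (20 * (n + 2) ^ 2) ^ (n + 1)
      have h3 : (20 * (n + 2) ^ 2) ^ n ≤ (20 * (n + 2) ^ 2) ^ (n + 1) :=
        Nat.pow_le_pow_right (by positivity) (Nat.le_succ n)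
      omega
    omega
  obtain ⟨r, d, V, h1, h2, h3, h4, h5, h6, h7, h8, h9⟩ :=
    exists_tower hs hA hc g hB (NN n) n (⊤ : Lt hv n) isSub_top hne hdm 1 hN
  have hal : ∀ l, l ≤ r → 1 ≤ ((d l).al : ℕ) := by
    intro l hl
    cases l with
    | zero => exact h7
    | succ l =>
      have h10 := (h9 l (by omega)).1
      have h11 := (h6 l (by omega)).s1
      omega
  have hen : ∀ l, ∃ p : ℤ → ℝ, l ≤ r → En (Le (Sp π ρ S (AA n R) c (d l) g B (V l) (V (l + 1))) (md n (d l).j))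
      (l * Gm (AA n R) c r d) p := by
    intro l
    by_cases hl : l ≤ r
    · have hlp : Lp S R (kap π ρ B (V l) (d l).k g) := kap_lp hs hB (h5 l hl) (h4 l hl) _ g
      have hΦ : Nm π (Sp π ρ S (AA n R) c (d l) g B (V l) (V (l + 1))) :=
        Pool.Agent.H25.CO.Fb_nm hs (h5 l hl) (h6 l hl).sub _ g _ _
      have hep : 0 ≤ ep n := by
        unfold ep
        positivity
      have hno : ∃ s t, Sp π ρ S (AA n R) c (d l) g B (V l) (V (l + 1)) s ≠
          Sp π ρ S (AA n R) c (d l) g B (V l) (V (l + 1)) t := Fb_ne hs hlp g _ (h6 l hl).sub (h6 l hl).nle hep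
      have hmd : 0 ≤ md n (d l).j := by
        unfold md
        have := cc_pos n (d l).j
        have := cc_pos n ((d l).j + 1)
        linarith
      have hle := exists_le hs.unif hΦ hno hmd (md_mul_le n _)
      obtain ⟨p, hp⟩ := exists_en hle (le_per hΦ _) (l * Gm (AA n R) c r d) (le_fin hs.unif hΦ _ _)
      exact ⟨p, fun _ => hp⟩
    · exact ⟨fun _ => 0, fun h => absurd h hl⟩
  choose p hp using hen
  refine ⟨r, d, fun i => ⨆ l : Fin (r + 1), Sp π ρ S (AA n R) c (d l) g B (V l) (V (l + 1)) (p l (i l)) ⊓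
    bl π (La hv ρ g) (l * Gm (AA n R) c r d + Gm (AA n R) c r d / 2), ?_, V, p, ?_, ?_, ?_⟩
  · have h10 : ∀ l, l ≤ r → ((d l).al : ℕ) + 4 ≤ (d l).a ∧ ((d l).a : ℕ) + 6 ≤ (d l).b ∧ ((d l).b : ℕ) + 4 ≤ (d l).be :=
      fun l hl => ⟨(h6 l hl).s1, (h6 l hl).s2, (h6 l hl).s3⟩
    constructor <;> first | exact h1 | exact hal | exact h10 | exact h9
  · exact ⟨h2, h3, h4, h5, fun l hl => (h6 l hl).lv⟩
  · exact fun l hl => (h6 l hl).gap
  · exact ⟨fun l hl => hp l hl, fun i => rfl⟩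

end Pool.Agent.H2.EX
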