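import Pool.Agent.H2.EX.En
import Pool.Agent.H10.RA.Val

/-!
# H2 EX, Cls: families of balls have at most `n` jumps in a period; long intervals; the gap index
-/

set_option autoImplicit false

namespace Pool.Agent.H2.EX

open Pool.Agent.H54.TT Pool.Agent.H98.RH Pool.Agent.H75.CO Pool.Agent.H10.RA Matrix

variable {K : Type} [Field K] {v : K → ℤ} {hv : IsDV v} {n : ℕ}

theorem v_zpow (hv : IsDV v) {π : Kˣ} (hπ : v π = 1) (k : ℤ) : v ((π ^ k : Kˣ) : K) = k := by
  have hnat : ∀ m : ℕ, v ((π ^ m : Kˣ) : K) = m := by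
    intro m
    induction m with
    | zero => rw [pow_zero, Units.val_one, hv.one]; rfl
    | succ m ih =>
      rw [pow_succ, Units.val_mul, hv.mul _ _ (Units.ne_zero _) (Units.ne_zero _), ih, hπ]
      push_cast
      ring
  obtain ⟨m, rfl | rfl⟩ := k.eq_nat_or_neg
  · rw [zpow_natCast, hnat]
  · rw [_root_.zpow_neg, zpow_natCast, Units.val_inv_eq_inv_val, hv.inv (Units.ne_zero _), hnat]

theorem mem_sh_iff {π : Kˣ} {k : ℤ} {M : Lt hv n} {x : Fin n → K} :
    x ∈ sh π k M ↔ ((π ^ (-k) : Kˣ) : K) • x ∈ M := by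
  constructor
  · rintro ⟨y, hy, rfl⟩
    show ((π ^ (-k) : Kˣ) : K) • ((π ^ k : Kˣ) : K) • y ∈ M
    rw [smul_smul, ← Units.val_mul, ← _root_.zpow_add, neg_add_cancel, zpow_zero, Units.val_one, one_smul]
    exact hy
  · intro h
    refine ⟨_, h, ?_⟩
    show ((π ^ k : Kˣ) : K) • ((π ^ (-k) : Kˣ) : K) • x = x
    rw [smul_smul, ← Units.val_mul, ← _root_.zpow_add, add_neg_cancel, zpow_zero, Units.val_one, one_smul]

theorem sh_zero (π : Kˣ) (M : Lt hv n) : sh π 0 M = M := by
  ext x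
  rw [mem_sh_iff, neg_zero, zpow_zero, Units.val_one, one_smul]

theorem sh_sh (π : Kˣ) (j k : ℤ) (M : Lt hv n) : sh π j (sh π k M) = sh π (j + k) M := by
  ext x
  rw [mem_sh_iff, mem_sh_iff, mem_sh_iff, smul_smul, ← Units.val_mul, ← _root_.zpow_add]
  have e : -k + -j = -(j + k) := by ring
  rw [e]

theorem sh_mono (π : Kˣ) (k : ℤ) {M M' : Lt hv n} (h : M ≤ M') : sh π k M ≤ sh π k M' := by
  intro x hx
  rw [mem_sh_iff] at hx ⊢
  exact h hx

theorem sh_inj (π : Kˣ) (k : ℤ) {M M' : Lt hv n} (h : sh π k M = sh π k M') : M = M' := by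
  have h1 := congrArg (sh π (-k)) h
  rw [sh_sh, sh_sh, neg_add_cancel, sh_zero, sh_zero] at h1
  exact h1

/-- `π ^ k u` with a unit `u` -/
theorem unit_mem (hv : IsDV v) {π : Kˣ} (hπ : v π = 1) {c : K} (hc : c ≠ 0) :
    c * ((π ^ (-(v c)) : Kˣ) : K) ∈ Ov hv := by
  rw [mem_Ov]
  intro _
  rw [hv.mul _ _ hc (Units.ne_zero _), v_zpow hv hπ]
  linarith

theorem smul_mem_ball {π : Kˣ} (hπ : v π = 1) {Φ : ℝ → Lt hv n} (hΦ : Nm π Φ) {t : ℝ} {x : Fin n → K} (hx : x ∈ Φ t)
    {c : K} (hc : c ≠ 0) : c • x ∈ Φ (t - v c) := by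
  have e : t - (v c : ℝ) = t + ((-(v c) : ℤ) : ℝ) := by
    push_cast
    ring
  rw [e, hΦ.per, neg_neg, mem_sh_iff, smul_smul, mul_comm]
  exact Submodule.smul_mem _ (⟨_, unit_mem hv hπ hc⟩ : Ov hv) hx

/-- chains in a period have length at most `n` -/
theorem chain_le {π : Kˣ} (hπ : v π = 1) {Φ : ℝ → Lt hv n} (hΦ : Nm π Φ) {m : ℕ} (s : ℕ → ℝ)
    (hs : ∀ i, i < m → s i < s (i + 1)) (h1 : s m ≤ s 0 + 1) (hne : ∀ i, i < m → Φ (s i) ≠ Φ (s (i + 1))) : m ≤ n := by
  classical
  have hx : ∀ i : Fin m, ∃ x, x ∈ Φ (s (i + 1)) ∧ x ∉ Φ (s i) := by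
    intro i
    by_contra hcon
    push Not at hcon
    exact hne i i.2 (le_antisymm (hΦ.mono (hs i i.2).le) hcon)
  choose x hx1 hx2 using hx
  have hmono : ∀ i j : ℕ, i ≤ j → j ≤ m → s i ≤ s j := by
    intro i j hij
    induction hij with
    | refl => intro _; exact le_rfl
    | step _ ih =>
      intro hj
      exact (ih (by omega)).trans (hs _ (by omega)).le
  have hli : LinearIndependent K x := by
    rw [Fintype.linearIndependent_iff]
    intro c hc i
    by_contra hci
    obtain ⟨k, hk, hkm⟩ := Finset.exists_max_image (Finset.univ.filter fun j : Fin m => c j ≠ 0)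
      (fun j => s (j + 1) - (v (c j) : ℝ)) ⟨i, Finset.mem_filter.2 ⟨Finset.mem_univ i, hci⟩⟩
    have hck : c k ≠ 0 := (Finset.mem_filter.1 hk).2
    have hother : ∀ j, j ≠ k → c j • x j ∈ Φ (s k - v (c k)) := by
      intro j hjk
      by_cases hcj : c j = 0
      · rw [hcj, zero_smul]
        exact Submodule.zero_mem _
      refine hΦ.mono ?_ (smul_mem_ball hπ hΦ (hx1 j) hcj)
      by_contra hlt
      rw [not_le] at hlt
      have h2 := hkm j (Finset.mem_filter.2 ⟨Finset.mem_univ j, hcj⟩)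
      have h2' : s (j + 1) - (v (c j) : ℝ) ≤ s (k + 1) - (v (c k) : ℝ) := h2
      have b1 : s 0 < s (j + 1) := lt_of_lt_of_le (hs 0 (by have := j.2; omega)) (hmono 1 (j + 1) (by omega) (by have := j.2; omega))
      have b2 : s (j + 1) ≤ s 0 + 1 := (hmono (j + 1) m (by have := j.2; omega) le_rfl).trans h1
      have b3 : s 0 ≤ s k := hmono 0 k (by omega) (by have := k.2; omega)
      have b4 : s (k + 1) ≤ s 0 + 1 := (hmono (k + 1) m (by have := k.2; omega) le_rfl).trans h1
      have h3 : v (c j) = v (c k) := by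
        have h4 : (v (c j) : ℝ) - v (c k) < 1 := by linarith
        have h5 : -1 < (v (c j) : ℝ) - v (c k) := by linarith
        have h6 : v (c j) - v (c k) < 1 := by exact_mod_cast h4
        have h7 : -1 < v (c j) - v (c k) := by exact_mod_cast h5
        omega
      rw [h3] at hlt h2'
      rcases lt_or_gt_of_ne (fun h => hjk (Fin.ext h) : (j : ℕ) ≠ k) with h | h
      · have := hmono (j + 1) k (by omega) (by have := k.2; omega)
        linarith
      · have h8 := hmono (k + 1) j (by omega) (by have := j.2; omega)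
        have h9 := hs j j.2
        linarith
    have h10 : c k • x k ∈ Φ (s k - v (c k)) := by
      have h11 : c k • x k = -∑ j ∈ Finset.univ.erase k, c j • x j := by
        rw [eq_neg_iff_add_eq_zero, Finset.add_sum_erase _ (fun j => c j • x j) (Finset.mem_univ k)]
        exact hc
      rw [h11]
      exact Submodule.neg_mem _ (Submodule.sum_mem _ fun j hj => hother j (Finset.ne_of_mem_erase hj))
    have h12 := smul_mem_ball hπ hΦ h10 (inv_ne_zero hck)
    rw [smul_smul, inv_mul_cancel₀ hck, one_smul, hv.inv hck] at h12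
    apply hx2 k
    have e : s k - (v (c k) : ℝ) - ((-(v (c k)) : ℤ) : ℝ) = s k := by
      push_cast
      ring
    rwa [e] at h12
  have h2 := hli.fintype_card_le_finrank
  rw [Module.finrank_fin_fun, Fintype.card_fin] at h2
  exact h2

/-- the left endpoints -/
def Lf {P : Type} (Φ : ℝ → P) : Set ℝ := {t | ∀ s, s < t → Φ s ≠ Φ t}

theorem le_sub_lf {P : Type} (Φ : ℝ → P) (c : ℝ) : Le Φ c ⊆ Lf Φ := fun _ h => h.2

theorem lf_encard {π : Kˣ} (hπ : v π = 1) {Φ : ℝ → Lt hv n} (hΦ : Nm π Φ) (T : ℝ) :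
    (Lf Φ ∩ Set.Ioc T (T + 1)).encard ≤ n := by
  classical
  by_contra hcon
  obtain ⟨F, hF, hFc⟩ := Set.exists_subset_encard_eq (k := ((n + 1 : ℕ) : ℕ∞)) (s := Lf Φ ∩ Set.Ioc T (T + 1)) (by
    push_cast
    exact Order.add_one_le_of_lt (not_le.1 hcon))
  have hfin : F.Finite := Set.finite_of_encard_eq_coe hFc
  obtain ⟨F', hF'⟩ : ∃ F' : Finset ℝ, (F' : Set ℝ) = F := ⟨hfin.toFinset, hfin.coe_toFinset⟩
  have hcard : F'.card = n + 1 := by
    rw [← hF', Set.encard_coe_eq_coe_finsetCard] at hFc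
    exact_mod_cast hFc
  obtain ⟨a, ha⟩ : ∃ a : Fin (n + 1) ↪o ℝ, Set.range a = F' := ⟨F'.orderEmbOfFin hcard, F'.range_orderEmbOfFin hcard⟩
  have haF : ∀ i, a i ∈ Lf Φ ∩ Set.Ioc T (T + 1) := by
    intro i
    apply hF
    rw [← hF', ← ha]
    exact ⟨i, rfl⟩
  obtain ⟨s, hs0, hs1⟩ : ∃ s : ℕ → ℝ, s 0 = T ∧ ∀ i (h : i < n + 1), s (i + 1) = a ⟨i, h⟩ :=
    ⟨fun i => Nat.casesOn i T fun i => if h : i < n + 1 then a ⟨i, h⟩ else 0, rfl, fun i h => dif_pos h⟩
  have hlt : ∀ i, i < n + 1 → s i < s (i + 1) := by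
    intro i hi
    rw [hs1 i hi]
    rcases i with _ | i
    · rw [hs0]
      exact (haF _).2.1
    · rw [hs1 i (by omega)]
      exact a.lt_iff_lt.2 (by rw [Fin.lt_def]; exact Nat.lt_succ_self _)
  have := chain_le hπ hΦ (m := n + 1) s hlt (by
    rw [hs1 n (by omega), hs0]
    exact (haF _).2.2) fun i hi => by
      have h1 := (haF ⟨i, hi⟩).1 (s i) (by rw [← hs1 i hi]; exact hlt i hi)
      rw [← hs1 i hi] at h1
      exact h1
  omega

theorem le_anti {π : Kˣ} {Φ : ℝ → Lt hv n} (hΦ : Nm π Φ) {c c' : ℝ} (h0 : 0 ≤ c') (h : c' ≤ c) : Le Φ c ⊆ Le Φ c' := by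
  rintro t ⟨h1, h2⟩
  refine ⟨le_antisymm (hΦ.mono (by linarith)) ?_, h2⟩
  rw [h1]
  exact hΦ.mono (by linarith)

theorem le_per {π : Kˣ} {Φ : ℝ → Lt hv n} (hΦ : Nm π Φ) (c : ℝ) (t : ℝ) : t ∈ Le Φ c ↔ t + 1 ∈ Le Φ c := by
  have hp : ∀ t, Φ (t + 1) = sh π (-1) (Φ t) := by
    intro t
    have := hΦ.per t 1
    push_cast at this
    exact this
  have e : t + 1 + c = t + c + 1 := by ring
  constructor
  · rintro ⟨h1, h2⟩
    refine ⟨?_, fun s hs heq => ?_⟩
    · rw [e, hp, hp, ← h1]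
    · refine h2 (s - 1) (by linarith) (sh_inj π (-1) ?_)
      rw [← hp, ← hp, sub_add_cancel]
      exact heq
  · rintro ⟨h1, h2⟩
    refine ⟨?_, fun s hs heq => ?_⟩
    · rw [e, hp, hp] at h1
      exact sh_inj π (-1) h1
    · refine h2 (s + 1) (by linarith) ?_
      rw [hp, hp, heq]

theorem le_fin {π : Kˣ} (hπ : v π = 1) {Φ : ℝ → Lt hv n} (hΦ : Nm π Φ) (c T : ℝ) :
    (Le Φ c ∩ Set.Ioc (T - 1) T).Finite := by
  have h1 := lf_encard hπ hΦ (T - 1)
  rw [sub_add_cancel] at h1
  have h2 : (Lf Φ ∩ Set.Ioc (T - 1) T).Finite := by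
    rw [← Set.encard_lt_top_iff]
    exact lt_of_le_of_lt h1 (ENat.natCast_lt_top n)
  exact h2.subset (Set.inter_subset_inter_left _ (le_sub_lf Φ c))

/-- there is a long interval -/
theorem exists_le {π : Kˣ} (hπ : v π = 1) {Φ : ℝ → Lt hv n} (hΦ : Nm π Φ) (hne : ∃ s t, Φ s ≠ Φ t) {c : ℝ} (hc : 0 ≤ c)
    (hc' : c * (n + 1) ≤ 1) : (Le Φ c).Nonempty := by
  -- some interval of length `c`
  obtain ⟨t, ht⟩ : ∃ t, Φ t = Φ (t + c) := by
    by_contra hcon
    push Not at hcon
    rcases hc.eq_or_lt with h0 | h0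
    · refine hcon 0 ?_
      rw [← h0, add_zero]
    have := chain_le hπ hΦ (m := n + 1) (fun i => i * c) (fun i _ => by
      push_cast
      linarith) (by
      push_cast
      linarith) fun i _ => by
        have h1 := hcon ((i : ℝ) * c)
        have e : (i : ℝ) * c + c = ((i + 1 : ℕ) : ℝ) * c := by
          push_cast
          ring
        rw [e] at h1
        exact h1
    omega
  -- its left endpoint
  obtain ⟨A, hA⟩ : ∃ A : Set ℝ, A = {s | Φ s = Φ t} := ⟨_, rfl⟩
  have hAne : A.Nonempty := ⟨t, by rw [hA]; rfl⟩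
  have hbdd : BddBelow A := by
    by_contra hcon
    rw [not_bddBelow_iff] at hcon
    have hall : ∀ s, s ≤ t → Φ s = Φ t := by
      intro s hs
      obtain ⟨u, hu, hus⟩ := hcon s
      rw [hA] at hu
      have hu' : Φ u = Φ t := hu
      exact le_antisymm (hΦ.mono hs) (by rw [← hu']; exact hΦ.mono hus.le)
    have hall2 : ∀ s, Φ s = Φ t := by
      have hper : ∀ (k : ℕ) s, s ≤ t + k → Φ s = Φ t := by
        intro k
        induction k with
        | zero =>
          intro s hs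
          rw [Nat.cast_zero, add_zero] at hs
          exact hall s hs
        | succ k ih =>
          intro s hs
          push_cast at hs
          have h1 : Φ (s - 1) = Φ t := ih _ (by linarith)
          have h2 := hΦ.per (s - 1) 1
          have h3 := hΦ.per (t - 1) 1
          push_cast at h2 h3
          rw [sub_add_cancel] at h2 h3
          calc Φ s = sh π (-1) (Φ (s - 1)) := h2
            _ = sh π (-1) (Φ (t - 1)) := by rw [h1, hall (t - 1) (by linarith)]
            _ = Φ t := h3.symm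
      intro s
      obtain ⟨k, hk⟩ := exists_nat_ge (s - t)
      exact hper k s (by linarith)
    obtain ⟨s1, s2, h⟩ := hne
    exact h ((hall2 s1).trans (hall2 s2).symm)
  obtain ⟨t0, ht0⟩ : ∃ t0, t0 = sInf A := ⟨_, rfl⟩
  have ht0le : t0 ≤ t := by
    rw [ht0]
    exact csInf_le hbdd (by rw [hA]; rfl)
  have hmem : Φ t0 = Φ t := by
    obtain ⟨s, hs, hs'⟩ := hΦ.rc t0
    obtain ⟨u, hu, hus⟩ := exists_lt_of_csInf_lt hAne (by rw [← ht0]; exact hs)
    rw [hA] at hu
    have hu' : Φ u = Φ t := hu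
    refine le_antisymm (hΦ.mono ht0le) ?_
    rw [← hu', ← hs']
    exact hΦ.mono hus.le
  refine ⟨t0, ?_, fun s hs heq => ?_⟩
  · refine le_antisymm (hΦ.mono (by linarith)) ?_
    rw [hmem, ht]
    exact hΦ.mono (by linarith)
  · have h1 : s ∈ A := by
      rw [hA]
      exact heq.trans hmem
    have h2 := csInf_le hbdd h1
    rw [← ht0] at h2
    linarith

theorem cc_pos (n j : ℕ) : 0 < cc n j := by
  unfold cc
  positivity

theorem cc_succ (n j : ℕ) : cc n (j + 1) = cc n j / 4 := by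
  unfold cc
  rw [pow_succ]
  field_simp

theorem cc_anti (n : ℕ) {i j : ℕ} (h : i ≤ j) : cc n j ≤ cc n i := by
  induction h with
  | refl => exact le_rfl
  | step _ ih =>
    rename_i m _
    rw [cc_succ]
    have := cc_pos n m
    linarith

/-- the gap index. Proof. Otherwise for every `j ≤ n` there is a left endpoint whose interval has a length between
`cc n (j + 1)` and `cc n j`; these `n + 1` left endpoints are different modulo `1`. -/
theorem exists_gap {π : Kˣ} (hπ : v π = 1) {Φ : ℝ → Lt hv n} (hΦ : Nm π Φ) :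
    ∃ j : Fin (n + 1), Le Φ (cc n (j + 1)) ⊆ Le Φ (cc n j) := by
  by_contra hcon
  push Not at hcon
  have h1 : ∀ j : Fin (n + 1), ∃ t, t ∈ Set.Ioc (0 : ℝ) 1 ∧ t ∈ Le Φ (cc n (j + 1)) ∧ t ∉ Le Φ (cc n j) := by
    intro j
    obtain ⟨t, h1, h2⟩ := Set.not_subset.1 (hcon j)
    have hper : ∀ (k : ℤ) (c t : ℝ), t ∈ Le Φ c ↔ t + k ∈ Le Φ c := by
      intro k c
      have hnat : ∀ (m : ℕ) (t : ℝ), t ∈ Le Φ c ↔ t + m ∈ Le Φ c := by
        intro m
        induction m with
        | zero =>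
          intro t
          rw [Nat.cast_zero, add_zero]
        | succ m ih =>
          intro t
          rw [ih t, le_per hΦ]
          push_cast
          rw [add_assoc]
      intro t
      obtain ⟨m, rfl | rfl⟩ := k.eq_nat_or_neg
      · exact_mod_cast hnat m t
      · have h := hnat m (t + ((-(m : ℤ) : ℤ) : ℝ))
        push_cast at h ⊢
        rw [neg_add_cancel_right] at h
        exact h.symm
    refine ⟨t + ((-(⌈t⌉ - 1) : ℤ) : ℝ), ⟨?_, ?_⟩, (hper _ _ _).1 h1, fun h => h2 ((hper _ _ _).2 h)⟩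
    · have := Int.ceil_lt_add_one t
      push_cast
      linarith
    · have := Int.le_ceil t
      push_cast
      linarith
  choose t ht1 ht2 ht3 using h1
  have hinj : Function.Injective t := by
    have key : ∀ i j : Fin (n + 1), i < j → t i ≠ t j := by
      intro i j hij heq
      apply ht3 j
      rw [← heq]
      exact le_anti hΦ (cc_pos _ _).le (cc_anti n (by rw [Fin.lt_def] at hij; omega)) (ht2 i)
    intro i j hij
    rcases lt_trichotomy i j with h | h | h
    · exact absurd hij (key i j h)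
    · exact h
    · exact absurd hij.symm (key j i h)
  have h2 : (Set.range t).encard ≤ n := by
    refine (Set.encard_le_encard ?_).trans (lf_encard hπ hΦ 0)
    rintro _ ⟨j, rfl⟩
    rw [zero_add]
    exact ⟨le_sub_lf Φ _ (ht2 j), ht1 j⟩
  rw [← Set.image_univ, hinj.encard_image, Set.encard_univ, ENat.card_eq_coe_fintype_card, Fintype.card_fin] at h2
  have h3 : n + 1 ≤ n := by exact_mod_cast h2
  omega

end Pool.Agent.H2.EX
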