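import Pool.Agent.H2.EX.Cls

/-!
# H2 EX, Dp: the deep part of a family of balls

`Ind π L x`: the vectors `x i` are independent modulo `π L`. `dd π L D`: the largest number of elements of `D` which are
independent modulo `π L`. If this number is the same for `L ⊓ P (-a)` and `L ⊓ P (-b)` then the vector space `W1` spanned by
a maximal family in `L ⊓ P (-b)` is the deep part: `W1 ⊓ L ≤ P (-b)`, and `L ⊓ P (-T) ≤ W1 ⊔ bl π L (a - T)` for `T ≤ b`.
-/

set_option autoImplicit false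

namespace Pool.Agent.H2.EX

open Pool.Agent.H54.TT Pool.Agent.H98.RH Pool.Agent.H75.CO Pool.Agent.H10.RA Matrix

variable {K : Type} [Field K] {v : K → ℤ} {hv : IsDV v} {n : ℕ}

/-- independent modulo `π L` -/
def Ind (π : Kˣ) (L : Lt hv n) {k : ℕ} (x : Fin k → Fin n → K) : Prop :=
  ∀ c : Fin k → K, (∀ i, Ge v 0 (c i)) → ∑ i, c i • x i ∈ sh π 1 L → ∀ i, Ge v 1 (c i)

/-- scaling of coefficients: if not all coefficients are integral (resp. zero) then after division by the largest one we get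
integral coefficients one of which is a unit -/
private theorem exists_scale (hv : IsDV v) {k : ℕ} (c : Fin k → K) {i0 : Fin k} (h0 : c i0 ≠ 0) :
    ∃ j, c j ≠ 0 ∧ v (c j) ≤ v (c i0) ∧ (∀ i, Ge v 0 ((c j)⁻¹ * c i)) ∧ ¬ Ge v 1 ((c j)⁻¹ * c j) := by
  classical
  obtain ⟨j, hj, hjm⟩ := Finset.exists_min_image (Finset.univ.filter fun i : Fin k => c i ≠ 0) (fun i => v (c i))
    ⟨i0, Finset.mem_filter.2 ⟨Finset.mem_univ i0, h0⟩⟩
  have hcj : c j ≠ 0 := (Finset.mem_filter.1 hj).2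
  refine ⟨j, hcj, hjm i0 (Finset.mem_filter.2 ⟨Finset.mem_univ i0, h0⟩), fun i hi => ?_, ?_⟩
  · have hci : c i ≠ 0 := fun h => hi (by rw [h, mul_zero])
    have h6 := hjm i (Finset.mem_filter.2 ⟨Finset.mem_univ i, hci⟩)
    rw [hv.mul _ _ (inv_ne_zero hcj) hci, hv.inv hcj]
    linarith
  · intro h
    rw [inv_mul_cancel₀ hcj] at h
    have := h one_ne_zero
    rw [hv.one] at this
    omega

theorem Ind.linear {π : Kˣ} {L : Lt hv n} {k : ℕ} {x : Fin k → Fin n → K} (h : Ind π L x) : LinearIndependent K x := by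
  rw [Fintype.linearIndependent_iff]
  intro c hc i
  by_contra hci
  obtain ⟨j, hj, -, hge, hnot⟩ := exists_scale hv c hci
  refine hnot (h (fun i => (c j)⁻¹ * c i) hge ?_ j)
  have e : ∑ i, ((c j)⁻¹ * c i) • x i = (c j)⁻¹ • ∑ i, c i • x i := by
    rw [Finset.smul_sum]
    exact Finset.sum_congr rfl fun i _ => (smul_smul _ _ _).symm
  rw [e, hc, smul_zero]
  exact Submodule.zero_mem _

theorem Ind.le {π : Kˣ} {L : Lt hv n} {k : ℕ} {x : Fin k → Fin n → K} (h : Ind π L x) : k ≤ n := by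
  have h2 := h.linear.fintype_card_le_finrank
  rw [Module.finrank_fin_fun, Fintype.card_fin] at h2
  exact h2

/-- coefficients of elements of `L` are integral -/
theorem Ind.int {π : Kˣ} (hπ : v π = 1) {L : Lt hv n} {k : ℕ} {x : Fin k → Fin n → K} (h : Ind π L x) {c : Fin k → K}
    (hc : ∑ i, c i • x i ∈ L) (i : Fin k) : Ge v 0 (c i) := by
  intro hci
  by_contra hneg
  rw [not_le] at hneg
  obtain ⟨j, hj, hjle, hge, hnot⟩ := exists_scale hv c hci
  refine hnot (h (fun i => (c j)⁻¹ * c i) hge ?_ j)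
  have e : ∑ i, ((c j)⁻¹ * c i) • x i = (c j)⁻¹ • ∑ i, c i • x i := by
    rw [Finset.smul_sum]
    exact Finset.sum_congr rfl fun i _ => (smul_smul _ _ _).symm
  rw [e, mem_sh_iff, smul_smul]
  have hmem : ((π ^ (-1 : ℤ) : Kˣ) : K) * (c j)⁻¹ ∈ Ov hv := by
    rw [mem_Ov]
    intro _
    rw [hv.mul _ _ (Units.ne_zero _) (inv_ne_zero hj), v_zpow hv hπ, hv.inv hj]
    linarith
  exact Submodule.smul_mem _ (⟨_, hmem⟩ : Ov hv) hc

open Classical in
/-- the largest number of elements of `D` which are independent modulo `π L` -/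
noncomputable def dd (π : Kˣ) (L D : Lt hv n) : ℕ :=
  Nat.findGreatest (fun k => ∃ x : Fin k → Fin n → K, (∀ i, x i ∈ D) ∧ Ind π L x) n

open Classical in
theorem dd_le (π : Kˣ) (L D : Lt hv n) : dd π L D ≤ n := Nat.findGreatest_le n

open Classical in
theorem dd_spec (π : Kˣ) (L D : Lt hv n) : ∃ x : Fin (dd π L D) → Fin n → K, (∀ i, x i ∈ D) ∧ Ind π L x := by
  have h0 : ∃ x : Fin 0 → Fin n → K, (∀ i, x i ∈ D) ∧ Ind π L x :=
    ⟨fun i => i.elim0, fun i => i.elim0, fun c _ _ i => i.elim0⟩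
  exact Nat.findGreatest_spec (m := 0) (P := fun k => ∃ x : Fin k → Fin n → K, (∀ i, x i ∈ D) ∧ Ind π L x)
    (Nat.zero_le n) h0

open Classical in
theorem le_dd {π : Kˣ} {L D : Lt hv n} {k : ℕ} {x : Fin k → Fin n → K} (hx : ∀ i, x i ∈ D) (h : Ind π L x) :
    k ≤ dd π L D :=
  Nat.le_findGreatest (P := fun k => ∃ x : Fin k → Fin n → K, (∀ i, x i ∈ D) ∧ Ind π L x) h.le ⟨x, hx, h⟩

theorem dd_mono (π : Kˣ) (L : Lt hv n) {D D' : Lt hv n} (h : D ≤ D') : dd π L D ≤ dd π L D' := by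
  obtain ⟨x, hx, hi⟩ := dd_spec π L D
  exact le_dd (fun i => h (hx i)) hi

/-- a maximal independent family generates modulo `π L` -/
theorem exists_comb {π : Kˣ} (hπ : v π = 1) {L D : Lt hv n} (hDL : D ≤ L) {k : ℕ} {x : Fin k → Fin n → K} (h : Ind π L x)
    (hxD : ∀ i, x i ∈ D) (hk : k = dd π L D) {y : Fin n → K} (hy : y ∈ D) :
    ∃ (c : Fin k → K) (z : Fin n → K), (∀ i, Ge v 0 (c i)) ∧ z ∈ L ∧ y = ∑ i, c i • x i + (π : K) • z := by
  have hnot : ¬ Ind π L (Fin.snoc (α := fun _ => Fin n → K) x y) := by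
    intro hcon
    have := le_dd (D := D) (fun i => ?_) hcon
    · omega
    · refine Fin.lastCases ?_ (fun i => ?_) i
      · rw [Fin.snoc_last]
        exact hy
      · rw [Fin.snoc_castSucc]
        exact hxD i
  unfold Ind at hnot
  push Not at hnot
  obtain ⟨c, hc, hsum, i0, hi0⟩ := hnot
  rw [Fin.sum_univ_castSucc] at hsum
  simp only [Fin.snoc_castSucc, Fin.snoc_last] at hsum
  have hpi : ∀ (a : K) (z : Fin n → K), Ge v 1 a → z ∈ L → a • z ∈ sh π 1 L := by
    intro a z ha hz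
    rw [mem_sh_iff, smul_smul]
    have hmem : ((π ^ (-1 : ℤ) : Kˣ) : K) * a ∈ Ov hv := by
      rw [mem_Ov]
      intro h0
      have ha0 : a ≠ 0 := right_ne_zero_of_mul h0
      rw [hv.mul _ _ (Units.ne_zero _) ha0, v_zpow hv hπ]
      have := ha ha0
      linarith
    exact Submodule.smul_mem _ (⟨_, hmem⟩ : Ov hv) hz
  have hlast : ¬ Ge v 1 (c (Fin.last k)) := by
    intro hlast
    have h1 : ∑ i : Fin k, c i.castSucc • x i ∈ sh π 1 L := by
      have h2 := Submodule.sub_mem _ hsum (hpi _ _ hlast (hDL hy))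
      rwa [add_sub_cancel_right] at h2
    have h3 := h (fun i => c i.castSucc) (fun i => hc _) h1
    apply hi0
    refine Fin.lastCases ?_ (fun i => ?_) i0
    · exact hlast
    · exact h3 i
  have hc0 : c (Fin.last k) ≠ 0 := by
    intro h0
    apply hlast
    rw [h0]
    exact ge_zero hv 1
  have hvc : v (c (Fin.last k)) = 0 := by
    have h1 := hc (Fin.last k) hc0
    have h2 : v (c (Fin.last k)) < 1 := by
      by_contra hcon
      exact hlast fun _ => not_lt.1 hcon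
    omega
  have hinv : Ge v 0 (c (Fin.last k))⁻¹ := by
    intro _
    rw [hv.inv hc0, hvc]
    simp
  have hinv' : (c (Fin.last k))⁻¹ ∈ Ov hv := hinv
  obtain ⟨u, hu⟩ : ∃ u, u = ∑ i : Fin k, c i.castSucc • x i + c (Fin.last k) • y := ⟨_, rfl⟩
  rw [← hu, mem_sh_iff] at hsum
  refine ⟨fun i => -((c (Fin.last k))⁻¹ * c i.castSucc), (c (Fin.last k))⁻¹ • ((π ^ (-1 : ℤ) : Kˣ) : K) • u, fun i => ?_,
    Submodule.smul_mem _ (⟨_, hinv'⟩ : Ov hv) hsum, ?_⟩
  · have := ge_mul hv hinv (hc i.castSucc)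
    rw [add_zero] at this
    exact ge_neg hv this
  · have e1 : ∑ i : Fin k, -((c (Fin.last k))⁻¹ * c i.castSucc) • x i = -((c (Fin.last k))⁻¹ • ∑ i : Fin k, c i.castSucc • x i) := by
      rw [Finset.smul_sum, ← Finset.sum_neg_distrib]
      refine Finset.sum_congr rfl fun i _ => ?_
      rw [neg_smul, smul_smul]
    have e2 : (π : K) • (c (Fin.last k))⁻¹ • ((π ^ (-1 : ℤ) : Kˣ) : K) • u = (c (Fin.last k))⁻¹ • u := by
      rw [smul_smul, smul_smul]
      congr 1
      rw [_root_.zpow_neg, zpow_one, Units.val_inv_eq_inv_val]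
      have := Units.ne_zero π
      field_simp
    rw [e1, e2, hu, smul_add, smul_smul _ _ y, inv_mul_cancel₀ hc0, one_smul, neg_add_cancel_left]

theorem isSub_span {k : ℕ} (x : Fin k → Fin n → K) :
    ∃ W1 : Lt hv n, IsSub W1 ∧ ∀ y, y ∈ W1 ↔ ∃ c : Fin k → K, y = ∑ i, c i • x i := by
  refine ⟨{ carrier := {y | ∃ c : Fin k → K, y = ∑ i, c i • x i}
            add_mem' := ?_
            zero_mem' := ⟨0, by simp⟩
            smul_mem' := ?_ }, ?_, fun y => Iff.rfl⟩
  · rintro _ _ ⟨c, rfl⟩ ⟨c', rfl⟩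
    refine ⟨c + c', ?_⟩
    rw [← Finset.sum_add_distrib]
    exact Finset.sum_congr rfl fun i _ => (add_smul _ _ _).symm
  · rintro a _ ⟨c, rfl⟩
    refine ⟨fun i => (a : K) * c i, ?_⟩
    show (a : K) • ∑ i, c i • x i = _
    rw [Finset.smul_sum]
    exact Finset.sum_congr rfl fun i _ => smul_smul _ _ _
  · rintro a _ ⟨c, rfl⟩
    refine ⟨fun i => a * c i, ?_⟩
    rw [Finset.smul_sum]
    exact Finset.sum_congr rfl fun i _ => smul_smul _ _ _

/-- THE DEEP PART -/
theorem exists_deep {π : Kˣ} (hπ : v π = 1) {P : ℝ → Lt hv n} (hP : Nm π P) {L W : Lt hv n} (hW : IsSub W)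
    (hPW : ∀ t, P t ≤ W) {a b : ℝ} (hab : dd π L (L ⊓ P (-a)) = dd π L (L ⊓ P (-b))) :
    ∃ W1 : Lt hv n, IsSub W1 ∧ W1 ≤ W ∧ W1 ⊓ L ≤ P (-b) ∧ ∀ T : ℝ, T ≤ b → L ⊓ P (-T) ≤ W1 ⊔ bl π L (a - T) := by
  obtain ⟨x, hx, hi⟩ := dd_spec π L (L ⊓ P (-b))
  obtain ⟨W1, hW1, hmem⟩ := isSub_span (hv := hv) x
  have hxW1 : ∀ i, x i ∈ W1 := by
    classical
    intro i
    rw [hmem]
    refine ⟨Pi.single i 1, ?_⟩
    rw [Finset.sum_eq_single i]
    · rw [Pi.single_eq_same, one_smul]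
    · intro j _ hj
      rw [Pi.single_eq_of_ne hj, zero_smul]
    · intro h
      exact absurd (Finset.mem_univ i) h
  refine ⟨W1, hW1, ?_, ?_, ?_⟩
  · intro y hy
    obtain ⟨c, rfl⟩ := (hmem y).1 hy
    exact Submodule.sum_mem _ fun i _ => hW _ _ (hPW _ (hx i).2)
  · rintro y ⟨hy, hyL⟩
    obtain ⟨c, rfl⟩ := (hmem y).1 hy
    exact Submodule.sum_mem _ fun i _ => Submodule.smul_mem _ (⟨c i, hi.int hπ hyL i⟩ : Ov hv) (hx i).2
  · have key : ∀ (j : ℕ) (T : ℝ), T ≤ b → T ≤ a + j → L ⊓ P (-T) ≤ W1 ⊔ bl π L (a - T) := by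
      intro j
      induction j with
      | zero =>
        intro T _ hT y hy
        rw [Nat.cast_zero, add_zero] at hT
        refine Submodule.mem_sup_right ?_
        unfold bl
        rw [mem_sh_iff, neg_neg]
        have h1 : 0 ≤ ⌊a - T⌋ := Int.floor_nonneg.2 (by linarith)
        have h2 : ((π ^ ⌊a - T⌋ : Kˣ) : K) ∈ Ov hv := by
          rw [mem_Ov]
          intro _
          rw [v_zpow hv hπ]
          exact h1
        exact Submodule.smul_mem _ (⟨_, h2⟩ : Ov hv) hy.1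
      | succ j ih =>
        intro T hTb hT y hy
        by_cases hTa : T ≤ a
        · exact ih T hTb (by
            have : (0 : ℝ) ≤ j := Nat.cast_nonneg j
            linarith) hy
        rw [not_le] at hTa
        have hD1 : L ⊓ P (-b) ≤ L ⊓ P (-T) := inf_le_inf_left _ (hP.mono (by linarith))
        have hD2 : L ⊓ P (-T) ≤ L ⊓ P (-a) := inf_le_inf_left _ (hP.mono (by linarith))
        have hk : dd π L (L ⊓ P (-b)) = dd π L (L ⊓ P (-T)) :=
          le_antisymm (dd_mono π L hD1) (by rw [← hab]; exact dd_mono π L hD2)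
        obtain ⟨c, z, hc, hz, hyz⟩ := exists_comb hπ inf_le_left hi (fun i => hD1 (hx i)) hk hy
        have hs : ∑ i, c i • x i ∈ W1 := (hmem _).2 ⟨c, rfl⟩
        have hsP : ∑ i, c i • x i ∈ P (-T) :=
          Submodule.sum_mem _ fun i _ => Submodule.smul_mem _ (⟨c i, hc i⟩ : Ov hv) (hD1 (hx i)).2
        have hzP : z ∈ P (-(T - 1)) := by
          have h1 : (π : K) • z ∈ P (-T) := by
            have h2 := Submodule.sub_mem _ hy.2 hsP
            rw [hyz, add_sub_cancel_left] at h2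
            exact h2
          have h3 := smul_mem_ball hπ hP h1 (inv_ne_zero (Units.ne_zero π))
          rw [smul_smul, inv_mul_cancel₀ (Units.ne_zero π), one_smul, hv.inv (Units.ne_zero π), hπ] at h3
          have e : -T - ((-1 : ℤ) : ℝ) = -(T - 1) := by
            push_cast
            ring
          rwa [e] at h3
        have h4 := ih (T - 1) (by linarith) (by
          push_cast at hT
          linarith) (⟨hz, hzP⟩ : z ∈ L ⊓ P (-(T - 1)))
        obtain ⟨w, hw, u, hu, hwu⟩ := Submodule.mem_sup.1 h4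
        rw [hyz, ← hwu, smul_add, ← add_assoc]
        refine Submodule.add_mem_sup (Submodule.add_mem _ hs (hW1 _ _ hw)) ?_
        unfold bl at hu ⊢
        rw [mem_sh_iff] at hu ⊢
        rw [smul_smul]
        have e1 : a - (T - 1) = a - T + 1 := by ring
        rw [e1, Int.floor_add_one] at hu
        have e2 : ((π ^ (-(-⌊a - T⌋)) : Kˣ) : K) * (π : K) = ((π ^ (-(-(⌊a - T⌋ + 1))) : Kˣ) : K) := by
          rw [← Units.val_mul, ← _root_.zpow_add_one]
          congr 2
          ring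
        rw [e2]
        exact hu
    intro T hT
    obtain ⟨j, hj⟩ := exists_nat_ge (T - a)
    exact key j T hT (by linarith)

end Pool.Agent.H2.EX
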