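import Pool.Agent.H75.CO.Hul
import Mathlib.LinearAlgebra.Dual.Lemmas

/-!
# [H2 EX Sep] the balls of a shape are not constant

A vector which is not in the subspace `W1` is not in `W1 + π ^ D M` for large `D` (take a linear form which vanishes on `W1`).
-/

set_option autoImplicit false

namespace Pool.Agent.H2.EX

open Pool.Agent.H54.TT Pool.Agent.H98.RH Pool.Agent.H75.CO Matrix
open scoped Pointwise

variable {K : Type} [Field K] {v : K → ℤ} {hv : IsDV v} {n : ℕ} {π : Kˣ}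

/-- a linear form is bounded on a lattice -/
theorem form_bdd (h : GL (Fin n) K) (φ : (Fin n → K) →ₗ[K] K) : ∃ C : ℤ, ∀ x ∈ LM hv h, Ge v C (φ x) := by
  classical
  let C : ℤ := -∑ i : Fin n, |v (φ (h.val *ᵥ Pi.single i 1))|
  have hC : ∀ i : Fin n, Ge v C (φ (h.val *ᵥ Pi.single i 1)) := by
    intro i _
    have h1 : |v (φ (h.val *ᵥ Pi.single i 1))| ≤ ∑ i : Fin n, |v (φ (h.val *ᵥ Pi.single i 1))| :=
      Finset.single_le_sum (f := fun i : Fin n => |v (φ (h.val *ᵥ Pi.single i 1))|) (fun i _ => abs_nonneg _)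
        (Finset.mem_univ i)
    have h2 := neg_abs_le (v (φ (h.val *ᵥ Pi.single i 1)))
    show -∑ i : Fin n, |v (φ (h.val *ᵥ Pi.single i 1))| ≤ _
    linarith
  refine ⟨C, ?_⟩
  rintro x ⟨y, hy, rfl⟩
  have e1 : ((Matrix.mulVecLin h.val).restrictScalars (Ov hv)) y = ∑ i, y i • (h.val *ᵥ Pi.single i 1) := by
    show h.val *ᵥ y = _
    have e2 : y = ∑ i, y i • (Pi.single i (1 : K) : Fin n → K) := by
      funext j
      rw [Finset.sum_apply]
      simp [Pi.single_apply]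
    conv_lhs => rw [e2]
    rw [← Matrix.mulVecLin_apply, map_sum]
    exact Finset.sum_congr rfl fun i _ => by rw [map_smul, Matrix.mulVecLin_apply]
  rw [e1, map_sum]
  have key : ∀ s : Finset (Fin n), Ge v C (∑ i ∈ s, φ (y i • (h.val *ᵥ Pi.single i 1))) := by
    intro s
    induction s using Finset.induction_on with
    | empty =>
      rw [Finset.sum_empty]
      exact ge_zero hv C
    | insert i s hi ih =>
      rw [Finset.sum_insert hi]
      refine ge_add hv ?_ ih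
      rw [map_smul, smul_eq_mul]
      have := ge_mul hv (hy i) (hC i)
      rwa [zero_add] at this
  exact key Finset.univ

theorem exists_notMem (hπ : v π = 1) {W1 : Lt hv n} (hW1 : IsSub W1) (h : GL (Fin n) K) {x : Fin n → K} (hx : x ∉ W1) :
    ∃ t : ℝ, x ∉ W1 ⊔ bl π (LM hv h) t := by
  classical
  let p : Submodule K (Fin n → K) :=
    { carrier := W1
      add_mem' := fun h1 h2 => W1.add_mem h1 h2
      zero_mem' := W1.zero_mem
      smul_mem' := fun c x hx => hW1 c x hx }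
  have hxp : x ∉ p := hx
  obtain ⟨φ, hφ, hφ'⟩ := Submodule.exists_dual_map_eq_bot_of_notMem hxp inferInstance
  obtain ⟨C, hC⟩ := form_bdd (hv := hv) h φ
  have hW : ∀ w ∈ W1, φ w = 0 := by
    intro w hw
    have h1 : φ w ∈ p.map φ := Submodule.mem_map_of_mem (show w ∈ p from hw)
    rw [hφ'] at h1
    exact (Submodule.mem_bot K).1 h1
  refine ⟨((C - v (φ x) - 1 : ℤ) : ℝ), fun hmem => ?_⟩
  obtain ⟨w, hw, z, hz, hwz⟩ := Submodule.mem_sup.1 hmem
  rw [mem_bl, Int.floor_intCast] at hz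
  have h1 := hC _ hz
  have h2 : φ x = φ z := by
    rw [← hwz, map_add, hW w hw, zero_add]
  rw [map_smul, ← h2, smul_eq_mul] at h1
  have h3 := h1 (mul_ne_zero (Units.ne_zero _) hφ)
  rw [hv.mul _ _ (Units.ne_zero _) hφ, Pool.Agent.H25.DI.v_zpow hv hπ] at h3
  omega

variable {G : Type} [Group G] {ρ : G →* GL (Fin n) K} {S : Set G} {R : ℕ}

theorem Fb_up (hs : Stp hv π ρ S R) {κ : G → ℝ} (hκ : Lp S R κ) (g : G) (M : ℕ) (W W1 : Lt hv n) {ε : ℝ} (hε : 0 ≤ ε)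
    (t : ℝ) : Fb π ρ S ε g M W W1 κ t ≤ W1 ⊔ bl π (La hv ρ g) (t + 2 * R * M) := by
  refine sup_le (iSup₂_le fun m hm => ?_) le_sup_left
  refine (hl_size hs hκ g m W _).trans (le_trans (bl_mono hs.unif _ ?_) le_sup_right)
  have h1 : (m : ℝ) ≤ M := by
    exact_mod_cast Nat.lt_succ_iff.1 (Finset.mem_range.1 hm)
  have h2 : (0 : ℝ) ≤ m := Nat.cast_nonneg m
  have h3 : (0 : ℝ) ≤ R := Nat.cast_nonneg R
  nlinarith [mul_nonneg hε h2, mul_le_mul_of_nonneg_left h1 h3]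

theorem Fb_ne (hs : Stp hv π ρ S R) {κ : G → ℝ} (hκ : Lp S R κ) (g : G) (M : ℕ) {W W1 : Lt hv n} (hW1 : IsSub W1)
    (hlt : ¬ W ≤ W1) {ε : ℝ} (hε : 0 ≤ ε) : ∃ s t, Fb π ρ S ε g M W W1 κ s ≠ Fb π ρ S ε g M W W1 κ t := by
  obtain ⟨x, hxW, hx1⟩ := Set.not_subset.1 hlt
  obtain ⟨t0, ht0⟩ := exists_notMem hs.unif hW1 (ρ g) hx1
  obtain ⟨m, hm⟩ := exists_mem_sh (hv := hv) hs.unif (ρ g) x
  refine ⟨((-m : ℤ) : ℝ), t0 - 2 * R * M, fun he => ht0 ?_⟩
  have h1 : x ∈ Fb π ρ S ε g M W W1 κ ((-m : ℤ) : ℝ) := by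
    refine Submodule.mem_sup_left ?_
    have h2 : x ∈ hl π ρ S g 0 W κ (κ g + ((-m : ℤ) : ℝ) - ε * ((0 : ℕ) : ℝ)) := by
      rw [hl_zero]
      refine ⟨hxW, ?_⟩
      have e1 : κ g + ((-m : ℤ) : ℝ) - ε * ((0 : ℕ) : ℝ) - κ g = ((-m : ℤ) : ℝ) := by
        push_cast
        ring
      rw [e1, bl_int, neg_neg]
      exact hm
    exact (le_iSup₂_of_le (f := fun (m' : ℕ) (_ : m' ∈ Finset.range (M + 1)) =>
      hl π ρ S g m' W κ (κ g + ((-m : ℤ) : ℝ) - ε * m')) 0 (Finset.mem_range.2 (Nat.succ_pos M)) le_rfl) h2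
  rw [he] at h1
  have h2 := Fb_up hs hκ g M W W1 hε _ h1
  have e2 : t0 - 2 * R * M + 2 * R * M = t0 := by ring
  rw [e2] at h2
  exact h2

end Pool.Agent.H2.EX
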