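import Pool.Agent.H2.EX.Pg
import Pool.Agent.H2.EX.Sep
import Pool.Agent.H2.EX.Cls
import Pool.Agent.H25.CO.Hul
import Pool.Agent.H52.CO.Dp

/-!
# [H2 EX Lvl] one level of a tower

`exists_level`: pigeonhole for the values `kap` of the norms `sg` on `W` (the index window `al, be`), then pigeonhole for the number
`rk` of directions of the hull (the index window `a, b`), and the deep part.
-/

set_option autoImplicit false

namespace Pool.Agent.H2.EX

open Pool.Agent.H54.TT Pool.Agent.H98.RH Pool.Agent.H75.CO Matrix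
open scoped Pointwise

variable {K : Type} [Field K] {v : K → ℤ} {hv : IsDV v} {n : ℕ} {π : Kˣ} {G : Type} [Group G]
  {ρ : G →* GL (Fin n) K} {S : Set G} {R : ℕ}

/-- a level with its window of indices -/
structure Good (π : Kˣ) (ρ : G →* GL (Fin n) K) (S : Set G) (A c : ℕ) {N : ℕ} (d : Dat n N) (g : G) (B : ℝ → Lt hv n)
    (W W1 : Lt hv n) : Prop where
  lv : Lv π ρ S A c 1 d g B W W1
  gap : Le (Sp π ρ S A c d g B W W1) (cc n (d.j + 1)) ⊆ Le (Sp π ρ S A c d g B W W1) (cc n d.j)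
  sub : IsSub W1
  nle : ¬ W ≤ W1
  dim : dm W1 < dm W
  s1 : (d.al : ℕ) + 4 ≤ d.a
  s2 : (d.a : ℕ) + 6 ≤ d.b
  s3 : (d.b : ℕ) + 4 ≤ d.be

theorem dm_mono' {W W' : Lt hv n} (h : W ≤ W') : dm W ≤ dm W' :=
  Submodule.finrank_mono (Submodule.span_mono h)

theorem Ln_mono'' {A c : ℕ} (hA : 1 ≤ A) : Monotone fun i => (Ln A c i : ℝ) := by
  intro i j hij
  show (Ln A c i : ℝ) ≤ (Ln A c j : ℝ)
  exact_mod_cast Nat.mul_le_mul_right c (Nat.pow_le_pow_right hA hij)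

theorem Ln_pos {A c : ℕ} (hA : 1 ≤ A) (hc : 1 ≤ c) (i : ℕ) : (0 : ℝ) < Ln A c i := by
  have h1 : 0 < Ln A c i := Nat.mul_pos (pow_pos hA i) hc
  exact_mod_cast h1

theorem exists_level (hs : Stp hv π ρ S R) {A c : ℕ} (hA : 1 ≤ A) (hc : 1 ≤ c) (g : G) {B : ℝ → Lt hv n} (hB : Hn B)
    {W : Lt hv n} (hW : IsSub W) (hne : W ≠ ⊥) {N : ℕ} (lo m : ℕ) (hm : 6 ≤ m)
    (hN : lo + (m * (n + 1) + 8) * (n + 1) < N) :
    ∃ (d : Dat n N) (W1 : Lt hv n), Good π ρ S A c d g B W W1 ∧ lo ≤ d.al ∧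
      (d.be : ℕ) ≤ lo + (m * (n + 1) + 8) * (n + 1) ∧ (d.b : ℕ) = d.a + m := by
  classical
  have hn : 0 < n := by
    rcases Nat.eq_zero_or_pos n with h0 | h0
    · subst h0
      exfalso
      apply hne
      rw [Submodule.eq_bot_iff]
      intro x _
      exact Subsingleton.elim _ _
    · exact h0
  -- the first pigeonhole
  obtain ⟨al, h1, h2, h3⟩ := exists_free (fun k : Fin n => -kap π ρ B W k g g) (fun i => (Ln A c i : ℝ)) (Ln_mono'' hA) lo
    (m * (n + 1) + 8)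
  have hex : ∃ k : ℕ, ∃ hk : k < n, -kap π ρ B W ⟨k, hk⟩ g g ≤ (Ln A c al : ℝ) := by
    refine ⟨n - 1, by omega, ?_⟩
    have h4 : kap π ρ B W ⟨n - 1, by omega⟩ g g = 0 :=
      kap_last hs hB hW hne (k := ⟨n - 1, by omega⟩) (by show n - 1 + 1 = n; omega) g
    rw [h4, neg_zero]
    exact (Ln_pos hA hc al).le
  obtain ⟨hk, hkk⟩ := Nat.find_spec hex
  set k : Fin n := ⟨Nat.find hex, hk⟩ with hkdef
  have hk' : ∀ k' : Fin n, (k' : ℕ) + 1 = k → kap π ρ B W k' g g ≤ -(Ln A c (al + (m * (n + 1) + 8)) : ℝ) := by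
    intro k' hk'
    have h4 : ¬ ∃ hk : (k' : ℕ) < n, -kap π ρ B W ⟨k', hk⟩ g g ≤ (Ln A c al : ℝ) :=
      Nat.find_min hex (by have : (k : ℕ) = Nat.find hex := rfl; omega)
    have h5 : ¬ -kap π ρ B W k' g g ≤ (Ln A c al : ℝ) := fun h => h4 ⟨k'.2, h⟩
    have h6 := (h3 k').resolve_left h5
    linarith
  -- the second pigeonhole
  set be : ℕ := al + (m * (n + 1) + 8) with hbe
  set κ : G → ℝ := kap π ρ B W k g with hκ
  have hlp : Lp S R κ := kap_lp hs hB hW hne k g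
  set P : ℝ → Lt hv n := fun t => hl π ρ S g (Ln A c (be - 2)) W κ (κ g + t) with hP
  have hPn : Nm π P := by
    have e1 : P = fun t => hl π ρ S g (Ln A c (be - 2)) W κ (t + κ g) := by
      funext t
      rw [hP]
      show hl π ρ S g (Ln A c (be - 2)) W κ (κ g + t) = _
      rw [add_comm]
    rw [e1]
    exact (Pool.Agent.H75.CO.hl_nm hs hW g _ κ).shift (κ g)
  have hPW : ∀ t, P t ≤ W := fun t => Pool.Agent.H75.CO.hl_le g _ W κ _
  set M : Lt hv n := La hv ρ g with hM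
  let ψ : ℕ → ℕ := fun i => Pool.Agent.H52.CO.rk π M (M ⊓ P (-(Ln A c i : ℝ)))
  have hψ : Antitone ψ := by
    intro i j hij
    refine Pool.Agent.H52.CO.rk_mono hs.unif M (inf_le_inf le_rfl (hPn.mono ?_))
    have := Ln_mono'' (c := c) hA hij
    have h4 : (Ln A c i : ℝ) ≤ (Ln A c j : ℝ) := this
    linarith
  obtain ⟨a, h4, h5, h6⟩ := exists_const (D := n) ψ hψ (fun i => Pool.Agent.H52.CO.rk_le hs.unif M _) (al + 4) m
  obtain ⟨W1, w1, w2, w3, w4, w5⟩ := Pool.Agent.H52.CO.exists_deep hs.unif (M := M) hW hPn.mono hPn.per hPW h6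
  have hlt : dm W1 < dm W := by
    rw [w5]
    refine Pool.Agent.H52.CO.rk_lt hs.unif hW (inf_le_right.trans (hPW _)) fun hle => ?_
    have h7 : M ⊓ W ≤ sg π M B k (κ g + -(Ln A c (a + m) : ℝ)) := by
      rw [inf_comm]
      exact (hle.trans inf_le_right).trans (hl_kap hs hB hW hne k g _ _)
    rw [hM, kap_le_iff hs hB hW hne] at h7
    have h8 := Ln_pos hA hc (a + m)
    have h9 : κ g = kap π ρ B W k g g := rfl
    rw [h9] at h7
    linarith
  have hnle : ¬ W ≤ W1 := fun hle => absurd (dm_mono' hle) (not_le.2 hlt)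
  have hΦ : Nm π (Fb π ρ S (ep n) g (Ln A c (a + 1)) W W1 κ) := Pool.Agent.H25.CO.Fb_nm hs hW w1 _ g _ κ
  obtain ⟨j, hj⟩ := exists_gap hs.unif hΦ
  have hbeN : be < N := by omega
  have hb4 : a + m + 4 ≤ be := by
    have e : al + 4 + m * (n + 1) + 4 = be := by
      rw [hbe]
      ring
    omega
  refine ⟨⟨⟨al, by omega⟩, ⟨be, hbeN⟩, ⟨a, by omega⟩, ⟨a + m, by omega⟩, j, k⟩, W1, ?_, h1, h2, rfl⟩
  refine ⟨⟨w2, ?_, ?_, ?_, ?_⟩, hj, w1, hnle, hlt, h4, by show a + 6 ≤ a + m; omega, hb4⟩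
  · show -(1 * (Ln A c al : ℝ)) ≤ kap π ρ B W k g g
    have h7 : -kap π ρ B W k g g ≤ (Ln A c al : ℝ) := hkk
    linarith
  · intro k' hkk'
    show W ⊓ La hv ρ g ≤ sg π (La hv ρ g) B k' (-((Ln A c be : ℝ) / 1))
    rw [div_one, inf_comm, kap_le_iff hs hB hW hne]
    exact hk' k' hkk'
  · show W1 ⊓ La hv ρ g ≤ hl π ρ S g (Ln A c (be - 2)) W κ (κ g - (Ln A c (a + m) : ℝ) / 1)
    rw [div_one, sub_eq_add_neg]
    exact w3
  · intro T hT
    have hT' : T ≤ (Ln A c (a + m) : ℝ) / 1 := hT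
    rw [div_one] at hT'
    show La hv ρ g ⊓ hl π ρ S g (Ln A c (be - 2)) W κ (κ g - T) ≤ W1 ⊔ bl π (La hv ρ g) (1 * (Ln A c a : ℝ) - T)
    rw [one_mul, sub_eq_add_neg (κ g)]
    exact w4 T hT'

end Pool.Agent.H2.EX
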