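import Mathlib.Data.Real.Basic
import Mathlib.Order.Monotone.Basic
import Mathlib.Tactic

/-!
# [H2 EX Pg] pigeonhole for scales
-/

set_option autoImplicit false

namespace Pool.Agent.H2.EX

theorem exists_const {D : ℕ} (f : ℕ → ℕ) (hf : Antitone f) (hD : ∀ i, f i ≤ D) (lo m : ℕ) :
    ∃ a, lo ≤ a ∧ a + m ≤ lo + m * (D + 1) ∧ f a = f (a + m) := by
  by_contra hcon
  push Not at hcon
  have h1 : ∀ i, i ≤ D → f (lo + m * (i + 1)) < f (lo + m * i) := by
    intro i hi
    have h2 := hcon (lo + m * i) (Nat.le_add_right _ _) (by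
      have := Nat.mul_le_mul_left m (Nat.succ_le_succ hi)
      have e : m * (i + 1) = m * i + m := by ring
      rw [Nat.succ_eq_add_one, Nat.succ_eq_add_one] at this
      omega)
    have h3 : f (lo + m * i + m) ≤ f (lo + m * i) := hf (Nat.le_add_right _ _)
    have e : lo + m * (i + 1) = lo + m * i + m := by ring
    rw [e]
    omega
  have h2 : ∀ i, i ≤ D + 1 → f (lo + m * i) + i ≤ D := by
    intro i
    induction i with
    | zero =>
      intro _
      simpa using hD _
    | succ i ih =>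
      intro hi
      have h3 := ih (by omega)
      have h4 := h1 i (by omega)
      omega
  have h3 := h2 (D + 1) le_rfl
  omega

theorem exists_free {n : ℕ} (y : Fin n → ℝ) (Λ : ℕ → ℝ) (hΛ : Monotone Λ) (lo m : ℕ) :
    ∃ a, lo ≤ a ∧ a + m ≤ lo + m * (n + 1) ∧ ∀ k, y k ≤ Λ a ∨ Λ (a + m) < y k := by
  classical
  let cnt : ℕ → ℕ := fun i => (Finset.univ.filter fun k => y k ≤ Λ i).card
  have hcnt : ∀ i, cnt i ≤ n := fun i => (Finset.card_filter_le _ _).trans (by rw [Finset.card_univ, Fintype.card_fin])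
  have hsub : ∀ i j, i ≤ j → (Finset.univ.filter fun k => y k ≤ Λ i) ⊆ (Finset.univ.filter fun k => y k ≤ Λ j) := by
    intro i j hij k hk
    rw [Finset.mem_filter] at hk ⊢
    exact ⟨hk.1, hk.2.trans (hΛ hij)⟩
  have hmono : ∀ i j, i ≤ j → cnt i ≤ cnt j := fun i j hij => Finset.card_le_card (hsub i j hij)
  obtain ⟨a, h1, h2, h3⟩ := exists_const (D := n) (fun i => n - cnt i) (fun i j hij => Nat.sub_le_sub_left (hmono i j hij) n)
    (fun i => Nat.sub_le _ _) lo m
  refine ⟨a, h1, h2, fun k => ?_⟩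
  have h4 : cnt a = cnt (a + m) := by
    have := hcnt a
    have := hcnt (a + m)
    have h5 : n - cnt a = n - cnt (a + m) := h3
    omega
  have h5 := Finset.eq_of_subset_of_card_le (hsub a (a + m) (Nat.le_add_right _ _)) h4.ge
  by_cases hk : y k ≤ Λ (a + m)
  · left
    have h6 : k ∈ (Finset.univ.filter fun k => y k ≤ Λ (a + m)) := Finset.mem_filter.2 ⟨Finset.mem_univ _, hk⟩
    rw [← h5] at h6
    exact (Finset.mem_filter.1 h6).2
  · right
    exact not_le.1 hk

end Pool.Agent.H2.EX
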